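import Mathlib
import Pool.Agent.Helper25.LS.Defs

/-!
# LS-DB: bound for the determinant of a compression
-/

set_option autoImplicit false

open Filter Topology Module

noncomputable section

namespace Pool.Agent.Helper32.LS

open Pool.Agent.Helper25.LS

/-- Hadamard's inequality over any finite index type -/
theorem had (h1 : S_HA) {ι : Type} [Fintype ι] [DecidableEq ι] (M : Matrix ι ι ℂ) :
    ‖M.det‖ ≤ ∏ l, Real.sqrt (∑ k, ‖M k l‖ ^ 2) := by
  have e := Fintype.equivFin ι
  have h := h1 (Fintype.card ι) (Matrix.reindex e e M)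
  rw [Matrix.det_reindex_self] at h
  refine h.trans (le_of_eq ?_)
  rw [← e.prod_comp]
  refine Finset.prod_congr rfl fun l _ => ?_
  rw [← e.sum_comp]
  simp [Matrix.reindex_apply]

theorem det_le (h1 : S_HA) {V : Type} [NormedAddCommGroup V] [InnerProductSpace ℂ V]
    {ι : Type} [Fintype ι] [DecidableEq ι] (b : OrthonormalBasis ι ℂ V) (G : V →ₗ[ℂ] V) :
    ‖LinearMap.det G‖ ≤ ∏ l, ‖G (b l)‖ := by
  rw [← LinearMap.det_toMatrix b.toBasis]
  refine (had h1 _).trans (le_of_eq ?_)
  refine Finset.prod_congr rfl fun l _ => ?_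
  have h2 : ∀ k, ‖LinearMap.toMatrix b.toBasis b.toBasis G k l‖ = ‖inner ℂ (b k) (G (b l))‖ := by
    intro k
    rw [LinearMap.toMatrix_apply]
    simp [OrthonormalBasis.repr_apply_apply]
  simp_rw [h2]
  rw [b.sum_sq_norm_inner_right, Real.sqrt_sq (norm_nonneg _)]

theorem diag {V W : Type} [NormedAddCommGroup V] [InnerProductSpace ℂ V] [FiniteDimensional ℂ V]
    [NormedAddCommGroup W] [InnerProductSpace ℂ W] [FiniteDimensional ℂ W] (B : V →ₗ[ℂ] W) :
    ∃ v : OrthonormalBasis (Fin (finrank ℂ V)) ℂ V,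
      ∀ k l, k ≠ l → inner ℂ (B (v k)) (B (v l)) = 0 := by
  have hS : (LinearMap.adjoint B ∘ₗ B).IsSymmetric := by
    intro x y
    simp only [LinearMap.comp_apply]
    rw [LinearMap.adjoint_inner_left, LinearMap.adjoint_inner_right]
  refine ⟨hS.eigenvectorBasis rfl, fun k l hkl => ?_⟩
  have h := hS.apply_eigenvectorBasis rfl l
  rw [← LinearMap.adjoint_inner_right]
  simp only [LinearMap.comp_apply] at h
  rw [h, inner_smul_right, (hS.eigenvectorBasis rfl).orthonormal.2 hkl, mul_zero]

/-- the sum of the norms of the columns outside `E₀` -/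
theorem colsum (H : Type) [NormedAddCommGroup H] [InnerProductSpace ℂ H] (T : H →L[ℂ] H)
    (E : Submodule ℂ H) [FiniteDimensional ℂ E] (E₀ : Submodule ℂ H) (ε : ℝ)
    (hT : ∀ (m : ℕ) (e u : Fin m → H), Orthonormal ℂ e → Orthonormal ℂ u → (∀ k, e k ∈ E₀ᗮ) →
      ∑ k, ‖inner ℂ (u k) (T (e k))‖ ≤ ε) (p : ℕ) (v : Fin p → E) (hv : Orthonormal ℂ v)
    (hv0 : ∀ k, (v k : H) ∈ E₀ᗮ)
    (ho : ∀ k l, k ≠ l → inner ℂ (comp H T E (v k)) (comp H T E (v l)) = 0) :
    ∑ k, ‖comp H T E (v k)‖ ≤ ε := by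
  classical
  have hcomp : ∀ w : E, comp H T E w = E.orthogonalProjectionOnto (T (w : H)) := fun w => rfl
  let S : Finset (Fin p) := Finset.univ.filter fun k => comp H T E (v k) ≠ 0
  have h1 : ∑ k, ‖comp H T E (v k)‖ = ∑ k ∈ S, ‖comp H T E (v k)‖ := by
    simp only [S]
    rw [Finset.sum_filter]
    refine Finset.sum_congr rfl fun k _ => ?_
    by_cases hk : comp H T E (v k) = 0
    · simp [hk]
    · simp [hk]
  let q : Fin (Fintype.card S) ≃ S := (Fintype.equivFin S).symm
  have hne : ∀ i, comp H T E (v (q i)) ≠ 0 := fun i => by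
    have := (q i).2
    simp only [S, Finset.mem_filter] at this
    exact this.2
  have hinj : ∀ i j, i ≠ j → ((q i : S) : Fin p) ≠ ((q j : S) : Fin p) := fun i j hij h =>
    hij (q.injective (Subtype.ext h))
  have h2 : ∑ k ∈ S, ‖comp H T E (v k)‖ = ∑ i, ‖comp H T E (v (q i))‖ := by
    rw [← Finset.sum_coe_sort, ← q.sum_comp]
  have hin : ∀ k l : Fin p, inner ℂ ((comp H T E (v k) : E) : H) (T (v l : H)) =
      inner ℂ (comp H T E (v k)) (comp H T E (v l)) := by
    intro k l
    rw [hcomp (v l), Submodule.inner_orthogonalProjectionOnto_eq_of_mem_left]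
  have key := hT (Fintype.card S) (fun i => (v (q i) : H))
    (fun i => ((((‖comp H T E (v (q i))‖ : ℝ)⁻¹ : ℝ) : ℂ) • ((comp H T E (v (q i)) : E) : H)))
    ?_ ?_ (fun i => hv0 _)
  · rw [h1, h2]
    refine le_trans (le_of_eq ?_) key
    refine Finset.sum_congr rfl fun i _ => ?_
    have hpos : 0 < ‖comp H T E (v (q i))‖ := norm_pos_iff.2 (hne i)
    rw [inner_smul_left, hin, inner_self_eq_norm_sq_to_K, norm_mul]
    simp only [Complex.conj_ofReal, Complex.norm_real, norm_inv, norm_norm, norm_pow,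
      Complex.coe_algebraMap]
    field_simp
  · constructor
    · intro i
      exact hv.1 _
    · intro i j hij
      exact hv.2 (hinj i j hij)
  · constructor
    · intro i
      have hpos : 0 < ‖comp H T E (v (q i))‖ := norm_pos_iff.2 (hne i)
      rw [norm_smul, Complex.norm_real, norm_inv, norm_norm, Submodule.coe_norm]
      exact inv_mul_cancel₀ hpos.ne'
    · intro i j hij
      show inner ℂ _ _ = _
      rw [inner_smul_left, inner_smul_right, ← Submodule.coe_inner, ho _ _ (hinj i j hij),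
        mul_zero, mul_zero]

theorem db (h1 : S_HA) : S_DB := by
  intro H _ _ T E₀ E _ ε hε hE hT z
  classical
  let K : Submodule ℂ E := E₀.submoduleOf E
  obtain ⟨v, hv⟩ := diag ((comp H T E) ∘ₗ Kᗮ.subtype)
  let w := stdOrthonormalBasis ℂ K
  have hcomp : ∀ w : E, comp H T E w = E.orthogonalProjectionOnto (T (w : H)) := fun w => rfl
  have hcn : ∀ x : E, ‖x‖ = 1 → ‖comp H T E x‖ ≤ ‖T‖ := by
    intro x hx
    rw [hcomp]
    refine (E.norm_orthogonalProjectionOnto_apply_le _).trans ?_
    refine (T.le_opNorm _).trans ?_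
    have : ‖(x : H)‖ = 1 := hx
    rw [this, mul_one]
  let fam : Fin (finrank ℂ K) ⊕ Fin (finrank ℂ Kᗮ) → E :=
    Sum.elim (fun i => (w i : E)) (fun k => ((v k : Kᗮ) : E))
  have hon : Orthonormal ℂ fam := by
    constructor
    · rintro (i | i)
      · exact w.orthonormal.1 i
      · exact v.orthonormal.1 i
    · rintro (i | i) (j | j) hij
      · have : i ≠ j := fun h => hij (by rw [h])
        have h := w.orthonormal.2 this
        simpa [fam] using h
      · exact (Submodule.mem_orthogonal K _).1 (v j).2 _ (w i).2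
      · have h := (Submodule.mem_orthogonal K _).1 (v i).2 _ (w j).2
        show inner ℂ ((v i : Kᗮ) : E) (w j : E) = 0
        rw [← inner_conj_symm, h, map_zero]
      · have : i ≠ j := fun h => hij (by rw [h])
        have h := v.orthonormal.2 this
        simpa [fam] using h
  have hcard : Fintype.card (Fin (finrank ℂ K) ⊕ Fin (finrank ℂ Kᗮ)) = finrank ℂ E := by
    rw [Fintype.card_sum, Fintype.card_fin, Fintype.card_fin, K.finrank_add_finrank_orthogonal]
  have hspan : ⊤ ≤ Submodule.span ℂ (Set.range fam) :=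
    (hon.linearIndependent.span_eq_top_of_card_eq_finrank' hcard).ge
  let b := OrthonormalBasis.mk hon hspan
  have hb : ∀ i, b i = fam i := fun i => by simp [b]
  have hdet := det_le h1 b (LinearMap.id + z • comp H T E)
  refine hdet.trans ?_
  rw [Fintype.prod_sum_type]
  have hK : finrank ℂ K = finrank ℂ E₀ := (Submodule.submoduleOfEquivOfLe hE).finrank_eq
  have hG : ∀ x : E, ‖x‖ = 1 → ‖(LinearMap.id + z • comp H T E : E →ₗ[ℂ] E) x‖ ≤
      1 + ‖z‖ * ‖comp H T E x‖ := by
    intro x hx
    rw [LinearMap.add_apply, LinearMap.id_apply, LinearMap.smul_apply]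
    refine (norm_add_le _ _).trans ?_
    rw [norm_smul, hx]
  have hbn : ∀ i, ‖b i‖ = 1 := fun i => b.orthonormal.1 i
  have hcs : ∑ k, ‖comp H T E ((v k : Kᗮ) : E)‖ ≤ ε := by
    refine colsum H T E E₀ ε hT _ (fun k => ((v k : Kᗮ) : E)) ?_ ?_ hv
    · constructor
      · intro i
        exact v.orthonormal.1 i
      · intro i j hij
        have h := v.orthonormal.2 hij
        simpa using h
    · intro k
      rw [Submodule.mem_orthogonal]
      intro x hx
      exact (Submodule.mem_orthogonal K _).1 (v k).2 ⟨x, hE hx⟩ hx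
  refine mul_le_mul ?_ ?_ (Finset.prod_nonneg fun _ _ => norm_nonneg _) (by positivity)
  · rw [← hK]
    calc ∏ i, ‖(LinearMap.id + z • comp H T E : E →ₗ[ℂ] E) (b (Sum.inl i))‖
        ≤ ∏ _i : Fin (finrank ℂ K), (1 + ‖z‖ * ‖T‖) := by
          refine Finset.prod_le_prod (fun _ _ => norm_nonneg _) fun i _ => ?_
          refine (hG _ (hbn _)).trans ?_
          gcongr
          exact hcn _ (hbn _)
      _ = (1 + ‖z‖ * ‖T‖) ^ finrank ℂ K := by simp
  · calc ∏ i, ‖(LinearMap.id + z • comp H T E : E →ₗ[ℂ] E) (b (Sum.inr i))‖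
        ≤ ∏ i, Real.exp (‖z‖ * ‖comp H T E (b (Sum.inr i))‖) := by
          refine Finset.prod_le_prod (fun _ _ => norm_nonneg _) fun i _ => ?_
          refine (hG _ (hbn _)).trans ?_
          rw [add_comm]
          exact Real.add_one_le_exp _
      _ = Real.exp (‖z‖ * ∑ i, ‖comp H T E (b (Sum.inr i))‖) := by
          rw [← Real.exp_sum, Finset.mul_sum]
      _ ≤ Real.exp (‖z‖ * ε) := by
          refine Real.exp_le_exp.2 (mul_le_mul_of_nonneg_left ?_ (norm_nonneg _))
          simpa [hb, fam] using hcs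

end Pool.Agent.Helper32.LS
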