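import Mathlib
import Pool.Agent.Helper25.LS.Defs

/-!
# LS-PE: the lifted projection is almost contractive up to the part orthogonal to `e`
-/

set_option autoImplicit false

open Filter Topology Module

noncomputable section

namespace Pool.Agent.Helper32.LS

open Pool.Agent.Helper25.LS

/-- the bound of the lifted linear map on the span of the `Φ⁻¹ e_k` -/
theorem pe_fd (h3 : S_FD) (X : ℕ → Type) [∀ j, NormedAddCommGroup (X j)]
    [∀ j, NormedSpace ℂ (X j)]
    (U : Ultrafilter ℕ) (Y : Type) [NormedAddCommGroup Y] [NormedSpace ℂ Y] (D : Ult X U Y)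
    (m : ℕ) (φ : Fin m → Y) (s : Fin m → lp X ⊤) (hs : ∀ k, D.π (s k) = φ k)
    (hφ : LinearIndependent ℂ φ) (d : ℝ) (hd : 0 < d) :
    ∀ᶠ j in (U : Filter ℕ), ∀ a : Fin m → ℂ,
      ‖∑ k, a k • s k j‖ ≤ (1 + d) * ‖∑ k, a k • φ k‖ := by
  let E : Submodule ℂ Y := Submodule.span ℂ (Set.range φ)
  let b : Basis (Fin m) ℂ E := Basis.span hφ
  have hb : ∀ k, ((b k : E) : Y) = φ k := fun k =>
    congrArg Subtype.val (Basis.span_apply hφ k)
  haveI : FiniteDimensional ℂ E := b.finiteDimensional_of_finite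
  let A : ∀ j, E →ₗ[ℂ] X j := fun j => b.constr ℂ (fun k => s k j)
  have hA : ∀ j (a : Fin m → ℂ), A j (∑ k, a k • b k) = ∑ k, a k • s k j := by
    intro j a
    rw [map_sum]
    refine Finset.sum_congr rfl fun k _ => ?_
    rw [map_smul]
    simp only [A]
    rw [Basis.constr_basis]
  have hn : ∀ a : Fin m → ℂ, ‖(∑ k, a k • b k : E)‖ = ‖∑ k, a k • φ k‖ := by
    intro a
    rw [Submodule.coe_norm]
    congr 1
    rw [Submodule.coe_sum]
    refine Finset.sum_congr rfl fun k _ => ?_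
    rw [Submodule.coe_smul, hb]
  have key := h3 E X U A 1 (1 + d) zero_le_one (by linarith) ?_
  · filter_upwards [key] with j hj a
    have := hj (∑ k, a k • b k)
    rwa [hA, hn] at this
  · intro v η hη
    obtain ⟨a, ha⟩ : ∃ a : Fin m → ℂ, v = ∑ k, a k • b k :=
      ⟨fun k => b.repr v k, (b.sum_repr v).symm⟩
    rw [ha, hn]
    have hl := D.lim (∑ k, a k • s k)
    have h2 : D.π (∑ k, a k • s k) = ∑ k, a k • φ k := by
      rw [map_sum]
      refine Finset.sum_congr rfl fun k _ => ?_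
      rw [map_smul, hs]
    rw [h2] at hl
    have h3 := hl.eventually (gt_mem_nhds (show ‖∑ k, a k • φ k‖ < ‖∑ k, a k • φ k‖ + η by
      linarith))
    filter_upwards [h3] with j hj
    rw [hA]
    have h4 : (∑ k, a k • s k : lp X ⊤) j = ∑ k, a k • s k j := by
      rw [lp.coeFn_sum, Finset.sum_apply]
      rfl
    rw [h4] at hj
    linarith

/-- the decomposition of the functionals -/
theorem pe_dec (Y : Type) [NormedAddCommGroup Y] [NormedSpace ℂ Y]
    (H : Type) [NormedAddCommGroup H] [InnerProductSpace ℂ H] [CompleteSpace H] (Φ : Y ≃L[ℂ] H)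
    (hΦ : ∀ y, ‖y‖ ≤ ‖Φ y‖) (m : ℕ) (e : Fin m → H) (he : Orthonormal ℂ e)
    (n : ℕ) (v : Fin n → (Y →L[ℂ] ℂ)) (hv : ∀ l, ‖v l‖ ≤ 1) :
    ∃ (M : ℕ) (u : Fin M → H) (c : Fin n → Fin M → ℂ), Orthonormal ℂ u ∧
      (∀ i k, inner ℂ (e k) (u i) = 0) ∧ (∀ l, ∑ i, ‖c l i‖ ^ 2 ≤ 1) ∧
      ∀ l y, v l y = ∑ k, v l (Φ.symm (e k)) * inner ℂ (e k) (Φ y) +
        ∑ i, c l i * inner ℂ (u i) (Φ y) := by
  -- the Riesz vectors
  let f : Fin n → (H →L[ℂ] ℂ) := fun l => (v l).comp (Φ.symm : H →L[ℂ] Y)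
  let g : Fin n → H := fun l => (InnerProductSpace.toDual ℂ H).symm (f l)
  have hg : ∀ l z, inner ℂ (g l) z = v l (Φ.symm z) := by
    intro l z
    simp only [g]
    rw [InnerProductSpace.toDual_symm_apply]
    rfl
  have hf : ∀ l, ‖f l‖ ≤ 1 := by
    intro l
    refine ContinuousLinearMap.opNorm_le_bound _ zero_le_one fun z => ?_
    have h1 : ‖(Φ.symm z : Y)‖ ≤ ‖z‖ := by
      have := hΦ (Φ.symm z)
      rwa [Φ.apply_symm_apply] at this
    calc ‖f l z‖ = ‖v l (Φ.symm z)‖ := rfl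
      _ ≤ ‖v l‖ * ‖(Φ.symm z : Y)‖ := (v l).le_opNorm _
      _ ≤ 1 * ‖z‖ := mul_le_mul (hv l) h1 (norm_nonneg _) zero_le_one
  have hgn : ∀ l, ‖g l‖ ≤ 1 := by
    intro l
    simp only [g]
    rw [LinearIsometryEquiv.norm_map]
    exact hf l
  let ρ : Fin n → H := fun l => g l - ∑ k, inner ℂ (e k) (g l) • e k
  have hρe : ∀ l k, inner ℂ (e k) (ρ l) = 0 := by
    intro l k
    simp only [ρ]
    rw [inner_sub_right, he.inner_right_fintype (fun k => inner ℂ (e k) (g l)), sub_self]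
  have hgd : ∀ l, g l = ρ l + ∑ k, inner ℂ (e k) (g l) • e k := by
    intro l
    simp only [ρ]
    abel
  have hρn : ∀ l, ‖ρ l‖ ≤ 1 := by
    intro l
    have h1 : inner ℂ (ρ l) (∑ k, inner ℂ (e k) (g l) • e k) = 0 := by
      rw [inner_sum]
      refine Finset.sum_eq_zero fun k _ => ?_
      have h0 : inner ℂ (ρ l) (e k) = 0 := by
        rw [← inner_conj_symm, hρe, map_zero]
      rw [inner_smul_right, h0, mul_zero]
    have h2 := norm_add_sq_eq_norm_sq_add_norm_sq_of_inner_eq_zero (𝕜 := ℂ) _ _ h1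
    rw [← hgd] at h2
    have h3 := hgn l
    have h4 := norm_nonneg (g l)
    nlinarith [norm_nonneg (ρ l), mul_self_nonneg ‖∑ k, inner ℂ (e k) (g l) • e k‖]
  let R : Submodule ℂ H := Submodule.span ℂ (Set.range ρ)
  haveI : FiniteDimensional ℂ R := FiniteDimensional.span_of_finite ℂ (Set.finite_range ρ)
  let b := stdOrthonormalBasis ℂ R
  let r : Fin n → R := fun l => ⟨ρ l, Submodule.subset_span ⟨l, rfl⟩⟩
  refine ⟨finrank ℂ R, fun i => (b i : H), fun l i => inner ℂ (r l) (b i), ?_, ?_, ?_, ?_⟩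
  · constructor
    · intro i
      exact b.orthonormal.1 i
    · intro i j hij
      have h := b.orthonormal.2 hij
      simpa using h
  · intro i k
    have h : R ≤ (Submodule.span ℂ {e k})ᗮ := by
      refine Submodule.span_le.2 ?_
      rintro _ ⟨l, rfl⟩
      exact Submodule.mem_orthogonal_singleton_iff_inner_right.2 (hρe l k)
    exact Submodule.mem_orthogonal_singleton_iff_inner_right.1 (h (b i).2)
  · intro l
    rw [b.sum_sq_norm_inner_left]
    have h : ‖r l‖ ≤ 1 := hρn l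
    have h0 := norm_nonneg (r l)
    nlinarith
  · intro l y
    have h5 : v l y = inner ℂ (g l) (Φ y) := by rw [hg, Φ.symm_apply_apply]
    have h6 : ρ l = ∑ i, inner ℂ (b i) (r l) • ((b i : R) : H) := by
      have := congrArg (Subtype.val) (b.sum_repr' (r l))
      rw [Submodule.coe_sum] at this
      exact this.symm
    have h7 : inner ℂ (ρ l) (Φ y) = ∑ i, inner ℂ (r l) (b i) * inner ℂ (b i : H) (Φ y) := by
      conv_lhs => rw [h6]
      rw [sum_inner]
      refine Finset.sum_congr rfl fun i _ => ?_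
      rw [inner_smul_left, inner_conj_symm]
    rw [h5]
    conv_lhs => rw [hgd]
    rw [inner_add_left, h7, sum_inner, add_comm]
    congr 1
    refine Finset.sum_congr rfl fun k _ => ?_
    rw [inner_smul_left, inner_conj_symm, hg]

theorem pe (h1 : S_LF) (h2 : S_OP) (h3 : S_FD) (h4 : S_NO) : S_PE := by
  intro X _ _ U Y _ _ D H _ _ _ Φ L δ hδ hΦ m e he
  -- the small parameter
  obtain ⟨d, hd, hdδ, hd1⟩ : ∃ d : ℝ, 0 < d ∧ 8 * d ≤ δ ∧ 8 * d ≤ 1 :=
    ⟨min δ 1 / 8, by positivity, by linarith [min_le_left δ 1], by linarith [min_le_right δ 1]⟩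
  let φ : Fin m → Y := fun k => Φ.symm (e k)
  have hφ : LinearIndependent ℂ φ := by
    have := he.linearIndependent
    exact this.map' (Φ.symm : H →ₗ[ℂ] Y) (LinearMap.ker_eq_bot.2 Φ.symm.injective)
  have hA := pe_fd h3 X U Y D m φ (fun k => L.σ (e k)) (fun k => L.hσ (e k)) hφ d hd
  let E : Submodule ℂ Y := Submodule.span ℂ (Set.range φ)
  haveI : FiniteDimensional ℂ E := FiniteDimensional.span_of_finite ℂ (Set.finite_range φ)
  obtain ⟨n, v, hv, hvE⟩ := h4 Y E d hd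
  obtain ⟨M, u, c, hu, heu, hc, hdec⟩ := pe_dec Y H Φ hΦ m e he n v hv
  refine ⟨M, u, hu, heu, ?_⟩
  -- the lifts of the functionals
  have hlift : ∀ l, ∃ hj : ∀ j, X j →L[ℂ] ℂ, (∀ j, ‖hj j‖ ≤ ‖v l‖) ∧
      ∀ x : lp X ⊤, Tendsto (fun j => hj j (x j)) (U : Filter ℕ) (𝓝 (v l (D.π x))) :=
    fun l => h1 X U Y D H Φ (v l)
  choose hj hjn hjt using hlift
  have hD : ∀ l, ∀ᶠ j in (U : Filter ℕ), ‖hj l j - ∑ k, v l (φ k) • L.τ (e k) j -
      ∑ i, c l i • L.τ (u i) j‖ ≤ d := by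
    intro l
    refine h2 X (fun _ => ℂ) U (fun j => hj l j - ∑ k, v l (φ k) • L.τ (e k) j -
      ∑ i, c l i • L.τ (u i) j) 0 d le_rfl hd ?_
    intro x hx η hη
    let x' : lp X ⊤ := ⟨x, memℓp_infty ⟨1, by rintro _ ⟨j, rfl⟩; exact hx j⟩⟩
    have ht : Tendsto (fun j => (hj l j - ∑ k, v l (φ k) • L.τ (e k) j -
        ∑ i, c l i • L.τ (u i) j) (x j)) (U : Filter ℕ) (𝓝 0) := by
      have t1 : Tendsto (fun j => hj l j (x j)) (U : Filter ℕ) (𝓝 (v l (D.π x'))) := hjt l x'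
      have t2 : Tendsto (fun j => ∑ k, v l (φ k) * L.τ (e k) j (x j)) (U : Filter ℕ)
          (𝓝 (∑ k, v l (φ k) * inner ℂ (e k) (Φ (D.π x')))) :=
        tendsto_finsetSum _ fun k _ => (L.hτ (e k) x').const_mul _
      have t3 : Tendsto (fun j => ∑ i, c l i * L.τ (u i) j (x j)) (U : Filter ℕ)
          (𝓝 (∑ i, c l i * inner ℂ (u i) (Φ (D.π x')))) :=
        tendsto_finsetSum _ fun i _ => (L.hτ (u i) x').const_mul _
      have t4 := (t1.sub t2).sub t3
      have t5 : v l (D.π x') - ∑ k, v l (φ k) * inner ℂ (e k) (Φ (D.π x')) -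
          ∑ i, c l i * inner ℂ (u i) (Φ (D.π x')) = 0 := by
        rw [hdec l (D.π x')]
        ring
      rw [t5] at t4
      refine t4.congr fun j => ?_
      simp [ContinuousLinearMap.sum_apply]
    have h6 := (tendsto_zero_iff_norm_tendsto_zero.1 ht).eventually
      (gt_mem_nhds (show (0 : ℝ) < 0 + η by linarith))
    filter_upwards [h6] with j hj using hj.le
  have hD' := Filter.eventually_all.2 hD
  filter_upwards [hA, hD'] with j hAj hDj x
  set S : ℝ := Real.sqrt (∑ i, ‖L.τ (u i) j x‖ ^ 2) with hS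
  have hS0 : 0 ≤ S := Real.sqrt_nonneg _
  have hAx := hAj (fun k => L.τ (e k) j x)
  obtain ⟨l, hl⟩ := hvE (∑ k, L.τ (e k) j x • φ k)
    (Submodule.sum_mem _ fun k _ => Submodule.smul_mem _ _ (Submodule.subset_span ⟨k, rfl⟩))
  set w : Y := ∑ k, L.τ (e k) j x • φ k with hw
  have hvw : v l w = hj l j x - (hj l j - ∑ k, v l (φ k) • L.τ (e k) j -
      ∑ i, c l i • L.τ (u i) j) x - ∑ i, c l i * L.τ (u i) j x := by
    rw [hw, map_sum]
    simp only [map_smul, smul_eq_mul, ContinuousLinearMap.sub_apply,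
      ContinuousLinearMap.sum_apply, ContinuousLinearMap.smul_apply]
    have : ∑ k, L.τ (e k) j x * v l (φ k) = ∑ k, v l (φ k) * L.τ (e k) j x :=
      Finset.sum_congr rfl fun k _ => mul_comm _ _
    rw [this]
    ring
  have hcs : ‖∑ i, c l i * L.τ (u i) j x‖ ≤ S := by
    have h7 : ‖∑ i, c l i * L.τ (u i) j x‖ ≤ ∑ i, ‖c l i‖ * ‖L.τ (u i) j x‖ := by
      refine (norm_sum_le _ _).trans (le_of_eq ?_)
      exact Finset.sum_congr rfl fun i _ => norm_mul _ _
    have h8 := Real.sum_mul_le_sqrt_mul_sqrt Finset.univ (fun i => ‖c l i‖)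
      (fun i => ‖L.τ (u i) j x‖)
    have h9 : Real.sqrt (∑ i, ‖c l i‖ ^ 2) ≤ 1 := by
      rw [Real.sqrt_le_left zero_le_one, one_pow]
      exact hc l
    calc ‖∑ i, c l i * L.τ (u i) j x‖ ≤ _ := h7
      _ ≤ _ := h8
      _ ≤ 1 * S := mul_le_mul_of_nonneg_right h9 hS0
      _ = S := one_mul S
  have hvn : ‖v l w‖ ≤ (1 + d) * ‖x‖ + S := by
    rw [hvw]
    have a1 : ‖hj l j x‖ ≤ 1 * ‖x‖ :=
      ((hj l j).le_opNorm x).trans (mul_le_mul_of_nonneg_right ((hjn l j).trans (hv l))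
        (norm_nonneg _))
    have a2 : ‖(hj l j - ∑ k, v l (φ k) • L.τ (e k) j -
        ∑ i, c l i • L.τ (u i) j) x‖ ≤ d * ‖x‖ :=
      (ContinuousLinearMap.le_opNorm _ x).trans (mul_le_mul_of_nonneg_right (hDj l)
        (norm_nonneg _))
    have a3 := norm_sub_le (hj l j x - (hj l j - ∑ k, v l (φ k) • L.τ (e k) j -
      ∑ i, c l i • L.τ (u i) j) x) (∑ i, c l i * L.τ (u i) j x)
    have a4 := norm_sub_le (hj l j x) ((hj l j - ∑ k, v l (φ k) • L.τ (e k) j -
      ∑ i, c l i • L.τ (u i) j) x)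
    linarith
  have hw1 : (1 - d) * ‖w‖ ≤ (1 + d) * ‖x‖ + S := hl.trans hvn
  have hx0 := norm_nonneg x
  have hw0 := norm_nonneg w
  have h10 : (1 - d) * ((1 + d) * ‖w‖) ≤ (1 - d) * ((1 + δ) * ‖x‖ + 2 * S) := by
    have e1 : (1 - d) * ((1 + d) * ‖w‖) ≤ (1 + d) * ((1 + d) * ‖x‖ + S) := by
      nlinarith
    have e2 : (1 + d) * (1 + d) ≤ (1 - d) * (1 + δ) := by nlinarith
    have e3 : (1 + d) ≤ 2 * (1 - d) := by linarith
    nlinarith [mul_le_mul_of_nonneg_right e2 hx0, mul_le_mul_of_nonneg_right e3 hS0]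
  have h11 := le_of_mul_le_mul_left h10 (by linarith)
  exact hAx.trans h11

end Pool.Agent.Helper32.LS
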